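import Pool.Agent.Helper82.PN.Goals

/-!
# PN (MP_6fb600_gt), packet TWOI: two points on opposite sides of a hyperplane
-/

set_option autoImplicit false

open MeasureTheory Set
open Pool.Agent.Helper47.AQ Pool.Agent.Helper82.PN

noncomputable section

namespace Pool.Agent.Helper16.PN

/-- `lift` as a linear map -/
def liftL (ι : Type) : (ι → ℝ) →ₗ[ℝ] (ι ⊕ Unit → ℝ) where
  toFun := lift
  map_add' x y := by
    funext i
    rcases i with i | i <;> simp [lift]
  map_smul' c x := by
    funext i
    rcases i with i | i <;> simp [lift]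

/-- the shear `u ↦ lift (u ∘ inl) + u (inr ()) d` where `d (inr ()) = 1` -/
def shear {ι : Type} (d : ι ⊕ Unit → ℝ) : (ι ⊕ Unit → ℝ) ≃ₗ[ℝ] (ι ⊕ Unit → ℝ) where
  toFun u := Sum.elim (fun i => u (Sum.inl i) + u (Sum.inr ()) * d (Sum.inl i))
    (fun _ => u (Sum.inr ()))
  invFun u := Sum.elim (fun i => u (Sum.inl i) - u (Sum.inr ()) * d (Sum.inl i))
    (fun _ => u (Sum.inr ()))
  map_add' x y := by
    funext i
    rcases i with i | i
    · simp only [Sum.elim_inl, Pi.add_apply]; ring
    · simp
  map_smul' c x := by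
    funext i
    rcases i with i | i
    · simp only [Sum.elim_inl, Pi.smul_apply, smul_eq_mul, RingHom.id_apply]; ring
    · simp
  left_inv u := by
    funext i
    rcases i with i | i
    · simp
    · simp
  right_inv u := by
    funext i
    rcases i with i | i
    · simp
    · simp

theorem gTWOI : TWOI := by
  intro ι _ C y y' hC hCn hhh
  set h := y (Sum.inr ()) with hh
  set h' := y' (Sum.inr ()) with hh'
  have hne : h' - h ≠ 0 := by
    intro h0
    have : h' = h := by linarith
    rw [this] at hhh
    nlinarith [mul_self_nonneg h]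
  set d : ι ⊕ Unit → ℝ := (h' - h)⁻¹ • (y' - y) with hd
  have hd1 : d (Sum.inr ()) = 1 := by
    simp only [hd, Pi.smul_apply, Pi.sub_apply, smul_eq_mul, ← hh, ← hh']
    exact inv_mul_cancel₀ hne
  set w : ι → ℝ := fun i => y (Sum.inl i) - h * d (Sum.inl i) with hw
  have hpt : ∀ s : ℝ, lift w + s • d = y + ((s - h) / (h' - h)) • (y' - y) := by
    intro s
    have h1 : ((s - h) / (h' - h)) • (y' - y) = (s - h) • d := by
      rw [hd, smul_smul, div_eq_mul_inv]
    rw [h1]
    funext i
    rcases i with i | i
    · simp only [lift, Pi.add_apply, Pi.smul_apply, smul_eq_mul, Sum.elim_inl, hw]; ring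
    · simp only [lift, Pi.add_apply, Pi.smul_apply, smul_eq_mul, Sum.elim_inr, Pi.zero_apply, hd1,
        ← hh]
      ring
  have hseg : ∀ s : ℝ, min h h' ≤ s → s ≤ max h h' → lift w + s • d ∈ segment ℝ y y' := by
    intro s h1 h2
    rw [hpt, segment_eq_image']
    refine ⟨(s - h) / (h' - h), ?_, rfl⟩
    rcases lt_or_gt_of_ne hne with hlt | hlt
    · have hle : h' ≤ h := by linarith
      rw [min_eq_right hle] at h1
      rw [max_eq_left hle] at h2
      constructor
      · exact div_nonneg_of_nonpos (by linarith) hlt.le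
      · rw [div_le_one_of_neg hlt]; linarith
    · have hle : h ≤ h' := by linarith
      rw [min_eq_left hle] at h1
      rw [max_eq_right hle] at h2
      constructor
      · exact div_nonneg (by linarith) hlt.le
      · rw [div_le_one hlt]; linarith
  have hw0 : lift w ∈ segment ℝ y y' := by
    have h1 := hseg 0 ?_ ?_
    · simpa using h1
    · rcases le_total h 0 with h2 | h2
      · exact (min_le_left _ _).trans h2
      · refine (min_le_right _ _).trans ?_
        by_contra hc
        push Not at hc
        nlinarith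
    · rcases le_total h 0 with h2 | h2
      · refine le_trans ?_ (le_max_right _ _)
        by_contra hc
        push Not at hc
        nlinarith
      · exact h2.trans (le_max_left _ _)
  have hy : y = lift w + h • d := by
    rw [hpt]; simp
  have hy' : y' = lift w + h' • d := by
    rw [hpt, div_self hne]; simp
  refine ⟨w, (shear d).toAffineEquiv.trans (AffineEquiv.constVAdd ℝ _ (lift w)), ?_⟩
  set A := (shear d).toAffineEquiv.trans (AffineEquiv.constVAdd ℝ _ (lift w)) with hA
  have hAl : ∀ x : ι → ℝ, A (Sum.elim x (0 : Unit → ℝ)) = lift (x + w) := by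
    intro x
    funext i
    rcases i with i | i
    · simp [hA, shear, lift, add_comm]
    · simp [hA, shear, lift]
  have hAr : ∀ z : Unit → ℝ, A (Sum.elim (0 : ι → ℝ) z) = lift w + z () • d := by
    intro z
    funext i
    rcases i with i | i
    · simp [hA, shear, lift]
    · simp [hA, shear, lift, hd1]
  have himg : ∀ S : Set (ι ⊕ Unit → ℝ), A '' convexHull ℝ S = convexHull ℝ (A '' S) := by
    intro S
    exact A.toAffineMap.image_convexHull S
  have hyR : y ∈ convexHull ℝ (insert y (insert y' (lift '' C))) :=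
    subset_convexHull ℝ _ (mem_insert _ _)
  have hyR' : y' ∈ convexHull ℝ (insert y (insert y' (lift '' C))) :=
    subset_convexHull ℝ _ (mem_insert_of_mem _ (mem_insert _ _))
  have hsR : segment ℝ y y' ⊆ convexHull ℝ (insert y (insert y' (lift '' C))) :=
    (convex_convexHull ℝ _).segment_subset hyR hyR'
  rw [freeSum, himg]
  apply subset_antisymm
  · refine convexHull_min ?_ (convex_convexHull ℝ _)
    rintro _ ⟨u, hu, rfl⟩
    rcases hu with ⟨x, ⟨x', hx', rfl⟩, rfl⟩ | ⟨z, ⟨hz1, hz2⟩, rfl⟩
    · simp only
      rw [hAl, sub_add_cancel]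
      have h1 : convexHull ℝ (insert w C) ⊆
          (liftL ι) ⁻¹' convexHull ℝ (insert y (insert y' (lift '' C))) := by
        refine convexHull_min ?_ ((convex_convexHull ℝ _).linear_preimage _)
        rintro c (rfl | hc)
        · exact hsR hw0
        · exact subset_convexHull ℝ _ (mem_insert_of_mem _ (mem_insert_of_mem _ ⟨c, hc, rfl⟩))
      exact h1 hx'
    · simp only
      rw [hAr]
      exact hsR (hseg _ hz1 hz2)
  · refine convexHull_min ?_ (convex_convexHull ℝ _)
    have hz : ∀ s : ℝ, min h h' ≤ s → s ≤ max h h' → lift w + s • d ∈ convexHull ℝ (A ''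
        ((fun x : ι → ℝ => Sum.elim x (0 : Unit → ℝ)) '' ((fun x => x - w) '' convexHull ℝ (insert w C)) ∪
          (fun y : Unit → ℝ => Sum.elim (0 : ι → ℝ) y) '' {z : Unit → ℝ | min h h' ≤ z () ∧
            z () ≤ max h h'})) := by
      intro s h1 h2
      refine subset_convexHull ℝ _ ⟨Sum.elim (0 : ι → ℝ) (fun _ => s), Or.inr ⟨fun _ => s, ⟨h1, h2⟩,
        rfl⟩, ?_⟩
      rw [hAr]
    rintro p (rfl | rfl | ⟨c, hc, rfl⟩)
    · have h1 := hz h (min_le_left _ _) (le_max_left _ _)
      rwa [← hy] at h1
    · have h1 := hz h' (min_le_right _ _) (le_max_right _ _)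
      rwa [← hy'] at h1
    · refine subset_convexHull ℝ _ ⟨Sum.elim (c - w) (0 : Unit → ℝ), Or.inl ⟨c - w, ⟨c,
        subset_convexHull ℝ _ (mem_insert_of_mem _ hc), rfl⟩, rfl⟩, ?_⟩
      rw [hAl, sub_add_cancel]

end Pool.Agent.Helper16.PN
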